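import Pool.Agent.Helper62.DGR.Emf

/-! Row EMB of DGR: a form of degree `D` is a form of degree `D'`; the canonical form of degree `D'` dominates it; the
volume decreases with the degree. -/

set_option autoImplicit false

namespace Pool.Agent.Helper62.DGR

open Finset Filter Topology Matrix Pool.Agent.Helper69.RK Pool.Agent.Helper31.EC Pool.Agent.Helper31.EC.Sp
open Pool.Agent.Helper40.EL Pool.Agent.Helper89.LX Pool.Agent.Helper3.LF Pool.Agent.Helper84.MT
open Pool.Agent.Helper95.LF (PdM)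
open Pool.Agent.Helper48.DGR (em EmbP)
open Pool.Agent.Helper14.MC (gx vx vol_eq vx_UB)

noncomputable section

/-- exchange of two labels -/
theorem am_swap {F : FSp} (l l' : FLab F) (E : l.T.Ω → l'.T.Ω → Prop) :
    (l.am l').sp.pb (fun w => E ((l.am l').p1.π w) ((l.am l').p2.π w)) =
      (l'.am l).sp.pb (fun w => E ((l'.am l).p2.π w) ((l'.am l).p1.π w)) := by
  classical
  unfold FSp.pb mass
  show ∑ w : l.T.Ω × l'.T.Ω, _ = ∑ w : l'.T.Ω × l.T.Ω, _
  refine Fintype.sum_equiv (Equiv.prodComm _ _) _ _ ?_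
  rintro ⟨a, b⟩
  show (if E a b then (l.am l').sp.μ (a, b) else 0) = if E a b then (l'.am l).sp.μ (b, a) else 0
  have h1 : (l.am l').sp.μ (a, b) = (l'.am l).sp.μ (b, a) := by
    show e1_ind (l.p.π a = l'.p.π b) * (l.T.μ a * l'.T.μ b / ms l.T.μ l.p.π (l.p.π a)) =
      e1_ind (l'.p.π b = l.p.π a) * (l'.T.μ b * l.T.μ a / ms l'.T.μ l'.p.π (l'.p.π b))
    by_cases h : l.p.π a = l'.p.π b
    · have h2 := (l.am l').law (l.p.π a)
      have h3 : ms l.T.μ l.p.π (l.p.π a) = ms l'.T.μ l'.p.π (l.p.π a) := h2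
      rw [e1_ind_pos h, e1_ind_pos h.symm, h3, ← h, mul_comm (l.T.μ a)]
    · rw [e1_ind_neg h, e1_ind_neg (fun h' => h h'.symm), zero_mul, zero_mul]
  rw [h1]

variable {S : Sp} {M D D' : ℕ} {κ : Type}

/-- a label with forms of degree `D` as a label with forms of degree `D'` -/
def exF {F : FSp} (h : D ≤ D') (x : FD F (Mon M D)) : FD F (Mon M D') where
  l := x.l
  g := fun ω => exM h (x.g ω)
  g' := fun ω => exM h (x.g' ω)
  meas := fun ω ω' a b c d => by
    have h1 := x.meas ω ω' a b c d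
    exact ⟨by rw [h1.1], by rw [h1.2]⟩

theorem gaq_cp_le (Q : S.VV M) (h : D ≤ D') (k : ℕ) : (gaq Q D).cp k ≤ (gaq Q D').cp k := by
  unfold Gau.cp
  apply Real.rpow_le_rpow_of_exponent_le (by norm_num)
  apply mul_le_mul_of_nonneg_right _ (S.F k).pos.le
  show (2 * (D : ℝ) + 1) + 1 ≤ (2 * (D' : ℝ) + 1) + 1
  have : (D : ℝ) ≤ D' := by exact_mod_cast h
  linarith

/-- the extension of an admissible form is admissible -/
theorem exF_Adf (Q : S.VV M) (h : D ≤ D') {A : κ → Part S} {x : ∀ k, FD (S.F k) (Mon M D)}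
    (hx : (gaq Q D).Adf A x) : (gaq Q D').Adf A (fun k => exF h (x k)) := by
  intro η hη
  obtain ⟨K, hK, hb⟩ := (gaq Q D').one
  have hη2 : 0 < η / 2 := by linarith
  have hs : S.Sub (fun k => cN M D D' + K k) :=
    (S.Sub_const (by have := cN_one M D D'; linarith)).add hK
  filter_upwards [hx _ hη2, hb, hs.eventually_le hη2, hK.1] with k hk h1 h2 hK0
  have hn := (S.F k).pos
  have hc := cN_one M D D'
  have hle : ∀ ω : (x k).l.T.Ω, (x k).l.T.μ ω ≠ 0 → ∀ B : Matrix (Mon M D) (Mon M D) ℝ, Cpd ((gaq Q D).cp k) B →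
      (gaq Q D).φ k ((x k).l.p.π ω) B ≤ 2 ^ (η / 2 * (S.F k).n) →
      (gaq Q D').φ k ((x k).l.p.π ω) (exM h B) ≤ 2 ^ (η * (S.F k).n) := by
    intro ω hω B hB h3
    have h4 := phi_exM h B hB.pdM (S.dl 1 k) (S.dl_pos 1 k) (Q.v k ((x k).l.p.π ω))
    have h5 := h1 _ ((x k).l.p.supp ω hω)
    have h6 : phi (S.dl 1 k) B (Q.v k ((x k).l.p.π ω)) ≤ 2 ^ (η / 2 * (S.F k).n) := h3
    have h7 : phi (S.dl 1 k) (1 : Matrix (Mon M D') (Mon M D') ℝ) (Q.v k ((x k).l.p.π ω)) ≤ K k := h5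
    have h8 : (1 : ℝ) ≤ 2 ^ (η / 2 * (S.F k).n) := Real.one_le_rpow (by norm_num) (by positivity)
    show phi (S.dl 1 k) (exM h B) (Q.v k ((x k).l.p.π ω)) ≤ _
    calc phi (S.dl 1 k) (exM h B) (Q.v k ((x k).l.p.π ω)) ≤
          cN M D D' * 2 ^ (η / 2 * (S.F k).n) + K k * 2 ^ (η / 2 * (S.F k).n) := by
            refine h4.trans (add_le_add (mul_le_mul_of_nonneg_left h6 (by linarith)) (h7.trans ?_))
            exact le_mul_of_one_le_right hK0 h8
      _ = (cN M D D' + K k) * 2 ^ (η / 2 * (S.F k).n) := by ring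
      _ ≤ 2 ^ (η / 2 * (S.F k).n) * 2 ^ (η / 2 * (S.F k).n) := mul_le_mul_of_nonneg_right (by linarith) (by positivity)
      _ = 2 ^ (η * (S.F k).n) := by
          rw [← Real.rpow_add (by norm_num)]
          congr 1
          ring
  refine ⟨fun i => (hk.1 i).trans ?_, fun ω hω => ?_, ?_, ?_⟩
  · exact mul_le_mul_of_nonneg_right (by linarith) hn.le
  · exact ⟨exM_Cpd h (gaq_cp_le Q h k) ((gaq Q D').one_le_cp k) (hk.2.1 ω hω).1,
      exM_Cpd h (gaq_cp_le Q h k) ((gaq Q D').one_le_cp k) (hk.2.1 ω hω).2⟩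
  · refine le_trans ((x k).l.T.pb_mono ?_) (hk.2.2.1.trans (by linarith))
    intro ω hω h3 h4
    exact h3 (hle ω hω _ (hk.2.1 ω hω).1 h4)
  · refine le_trans ((x k).l.T.pb_mono ?_) (hk.2.2.2.trans (by linarith))
    intro ω hω h3 h4
    exact h3 (hle ω hω _ (hk.2.1 ω hω).2 h4)

/-- the extension of a form has at most the volume of the form -/
theorem exF_vol (Q : S.VV M) (h : D ≤ D') {A : κ → Part S} {x : ∀ k, FD (S.F k) (Mon M D)}
    (hx : (gaq Q D).Adf A x) : vol Q D' (fun k => exF h (x k)) ≤ vol Q D x := by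
  rw [vol_eq, vol_eq]
  have u1 := vx_UB hx
  have u2 := vx_UB (exF_Adf Q h hx)
  set C : ℝ := M * Real.logb 2 (cN M D' D) with hC
  have t0 : Tendsto (fun k => C / (2 * (S.F k).n)) UF (𝓝 0) := by
    have h1 : Tendsto (fun k => 2 * (S.F k).n) UF atTop := S.lim.const_mul_atTop (by norm_num)
    exact h1.const_div_atTop C
  have t1 := (ul_tendsto u2).add t0
  rw [add_zero] at t1
  have h1 : ul (vx Q x) ≤ ul (vx Q fun k => exF h (x k)) := by
    refine le_of_tendsto_of_tendsto (ul_tendsto u1) t1 ?_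
    filter_upwards [hx 1 one_pos] with k hk
    have hn := (S.F k).pos
    have hc := cN_one M D' D
    have h3 : ∀ ω : (x k).l.T.Ω, (x k).l.T.μ ω ≠ 0 → gx Q k ((x k).l.p.π ω) ((x k).g ω) ≤
        gx Q k ((x k).l.p.π ω) (exM h ((x k).g ω)) + C / (2 * (S.F k).n) := by
      intro ω hω
      have c1 := (hk.2.1 ω hω).1
      have h4 := GQ_exM h ((x k).g ω) c1.2.1 c1.1 (S.dl 1 k) (S.dl_pos 1 k) (Q.v k ((x k).l.p.π ω))
      have h5 := one_le_GQ (S.dl 1 k) c1.1 c1.psd.2 (Q.v k ((x k).l.p.π ω))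
      have c2 := exM_Cpd h (gaq_cp_le Q h k) ((gaq Q D').one_le_cp k) c1
      have h6 := one_le_GQ (S.dl 1 k) c2.1 c2.psd.2 (Q.v k ((x k).l.p.π ω))
      have h7 := Real.logb_le_logb_of_le (b := 2) (by norm_num) (by linarith) h4
      rw [Real.logb_mul (by positivity) (by linarith), Real.logb_pow] at h7
      unfold gx
      rw [← add_div]
      apply div_le_div_of_nonneg_right _ (by positivity)
      rw [hC]
      linarith
    show ∑ ω, (x k).l.T.μ ω * gx Q k ((x k).l.p.π ω) ((x k).g ω) ≤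
      ∑ ω, (x k).l.T.μ ω * gx Q k ((x k).l.p.π ω) (exM h ((x k).g ω)) + C / (2 * (S.F k).n)
    have h8 : ∑ ω, (x k).l.T.μ ω * (C / (2 * (S.F k).n)) = C / (2 * (S.F k).n) := by
      rw [← Finset.sum_mul]
      have : ∑ ω, (x k).l.T.μ ω = 1 := (x k).l.T.ms
      rw [this, one_mul]
    rw [← h8, ← Finset.sum_add_distrib]
    refine Finset.sum_le_sum fun ω _ => ?_
    by_cases h0 : (x k).l.T.μ ω = 0
    · rw [h0, zero_mul, zero_mul, zero_mul, add_zero]
    · rw [← mul_add]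
      exact mul_le_mul_of_nonneg_left (h3 ω h0) ((x k).l.T.nn ω)
  linarith

/-- row EMB -/
theorem embP : ∀ M, EmbP M := by
  intro M D D' h S ι _ E s
  refine ⟨?_, ?_⟩
  · obtain ⟨x, hx⟩ := s.exists_can D 0
    rw [← s.vol_eq hx.1]
    exact (s.vol_le_of (exF_Adf s.Q h hx.1.1)).trans (exF_vol s.Q h hx.1.1)
  · intro x x' hx hx' e he
    have h1 := Gau.Optf.dom (gaq s.Q D') hx' (exF_Adf s.Q h hx) e he
    refine tendsto_of_tendsto_of_tendsto_of_le_of_le tendsto_const_nhds h1 (fun k => FSp.pb_nonneg _ _) (fun k => ?_)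
    have h2 := am_swap (x k).l (x' k).l (fun a b => ¬ ∀ v : Mon M D' → ℝ,
        qf ((x k).g a) (fun a => v (em h a)) ≤ 2 ^ (e * (S.F k).n) * qf ((x' k).g b) v)
    refine (le_of_eq h2).trans ?_
    apply FSp.pb_mono (F := ((x' k).l.am (x k).l).sp)
    intro w _ h3 h4
    apply h3
    intro v
    exact (le_qf_exM h _ v).trans (h4 v)

end

end Pool.Agent.Helper62.DGR
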