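import Pool.Agent.Helper48.DGR.St

/-! Row EMB of DGR: a form of degree `D` as a form of degree `D'`: deterministic part. -/

set_option autoImplicit false

namespace Pool.Agent.Helper62.DGR

open Finset Filter Topology Matrix Pool.Agent.Helper69.RK Pool.Agent.Helper31.EC
open Pool.Agent.Helper40.EL Pool.Agent.Helper89.LX Pool.Agent.Helper3.LF Pool.Agent.Helper84.MT
open Pool.Agent.Helper95.LF
open Pool.Agent.Helper48.DGR (em)
open MvPolynomial (eval pderiv)

noncomputable section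

variable {M D D' : ℕ}

theorem em_val (h : D ≤ D') (a : Mon M D) (i : Fin M) : ((em h a).1 i : ℕ) = (a.1 i : ℕ) := rfl

theorem em_inj (h : D ≤ D') : Function.Injective (em (M := M) h) := by
  intro a b hab
  apply Subtype.ext
  funext i
  apply Fin.ext
  rw [← em_val h a i, ← em_val h b i, hab]

theorem em_mon (h : D ≤ D') (a : Mon M D) : (em h a).mon = a.mon := by
  unfold Mon.mon
  congr 1

theorem vv_em (h : D ≤ D') (y : Fin M → ℝ) (a : Mon M D) : vv (D := D') y (em h a) = vv y a := by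
  unfold vv
  rw [em_mon]

theorem dd_em (h : D ≤ D') (i : Fin M) (y : Fin M → ℝ) (a : Mon M D) : dd (D := D') i y (em h a) = dd i y a := by
  unfold dd
  rw [em_mon]

theorem Wq_em (h : D ≤ D') (y e : Fin M → ℝ) (a : Mon M D) : (Wq M D' y *ᵥ e) (em h a) = (Wq M D y *ᵥ e) a := by
  unfold Matrix.mulVec dotProduct
  refine Finset.sum_congr rfl fun i _ => ?_
  show dd i y (em h a) * e i = dd i y a * e i
  rw [dd_em]

open Classical in
/-- the projection to the monomials of degree at most `D` -/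
def Pe (h : D ≤ D') : Matrix (Mon M D) (Mon M D') ℝ := Matrix.of fun a b => if b = em h a then 1 else 0

theorem Pe_mulVec (h : D ≤ D') (v : Mon M D' → ℝ) : Pe h *ᵥ v = fun a => v (em h a) := by
  classical
  funext a
  unfold Matrix.mulVec dotProduct
  have : ∀ b, Pe h a b * v b = if b = em h a then v b else 0 := by
    intro b
    show (if b = em h a then (1 : ℝ) else 0) * v b = _
    split_ifs <;> simp
  rw [Finset.sum_congr rfl fun b _ => this b]
  simp

open Classical in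
/-- the complement -/
def Ce (h : D ≤ D') : Matrix (Mon M D') (Mon M D') ℝ :=
  Matrix.diagonal fun b => if b ∈ Set.range (em (M := M) h) then 0 else 1

theorem qf_Ce (h : D ≤ D') (v : Mon M D' → ℝ) :
    qf (Ce h) v = v ⬝ᵥ v - (fun a => v (em h a)) ⬝ᵥ (fun a => v (em h a)) := by
  classical
  unfold qf Ce dotProduct
  have h1 : ∀ b, v b * ((Matrix.diagonal fun b => if b ∈ Set.range (em (M := M) h) then (0 : ℝ) else 1) *ᵥ v) b =
      v b * v b - if b ∈ Set.range (em (M := M) h) then v b * v b else 0 := by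
    intro b
    rw [Matrix.mulVec_diagonal]
    split_ifs <;> ring
  rw [Finset.sum_congr rfl fun b _ => h1 b, Finset.sum_sub_distrib]
  congr 1
  rw [← Finset.sum_filter]
  have h2 : (Finset.univ.filter fun b => b ∈ Set.range (em (M := M) h)) = Finset.univ.image (em (M := M) h) := by
    ext b
    simp
  rw [h2, Finset.sum_image fun a _ b _ hab => em_inj h hab]

theorem em_dot_le (h : D ≤ D') (v : Mon M D' → ℝ) : (fun a => v (em h a)) ⬝ᵥ (fun a => v (em h a)) ≤ v ⬝ᵥ v := by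
  classical
  unfold dotProduct
  rw [← Finset.sum_image (f := fun b => v b * v b) (s := Finset.univ) (g := em h) fun a _ b _ hab => em_inj h hab]
  exact Finset.sum_le_sum_of_subset_of_nonneg (Finset.subset_univ _) fun b _ _ => mul_self_nonneg _

/-- the EXTENSION of a form: the form on the monomials of degree at most `D`, the identity on the other monomials -/
def exM (h : D ≤ D') (A : Matrix (Mon M D) (Mon M D) ℝ) : Matrix (Mon M D') (Mon M D') ℝ :=
  (Pe (M := M) h).transpose * A * Pe (M := M) h + Ce h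

theorem exM_symm (h : D ≤ D') {A : Matrix (Mon M D) (Mon M D) ℝ} (hA : A.IsSymm) : (exM h A).IsSymm := by
  unfold exM
  refine Matrix.IsSymm.add ?_ ?_
  · unfold Matrix.IsSymm
    rw [Matrix.transpose_mul, Matrix.transpose_mul, Matrix.transpose_transpose, hA.eq, Matrix.mul_assoc]
  · unfold Ce
    exact Matrix.isSymm_diagonal _

theorem qf_exM (h : D ≤ D') (A : Matrix (Mon M D) (Mon M D) ℝ) (v : Mon M D' → ℝ) :
    qf (exM h A) v = qf A (fun a => v (em h a)) + qf (Ce h) v := by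
  unfold exM
  rw [qf_add]
  congr 1
  unfold qf
  rw [← Pe_mulVec h v]
  rw [Matrix.mul_assoc, ← Matrix.mulVec_mulVec, ← Matrix.mulVec_mulVec, Matrix.dotProduct_mulVec,
    Matrix.vecMul_transpose]

theorem qf_Ce_nonneg (h : D ≤ D') (v : Mon M D' → ℝ) : 0 ≤ qf (Ce h) v := by
  rw [qf_Ce]
  have := em_dot_le h v
  linarith

theorem qf_Ce_le (h : D ≤ D') (v : Mon M D' → ℝ) : qf (Ce h) v ≤ v ⬝ᵥ v := by
  rw [qf_Ce]
  have := dot_self_nonneg (fun a => v (em h a))
  linarith

theorem le_qf_exM (h : D ≤ D') (A : Matrix (Mon M D) (Mon M D) ℝ) (v : Mon M D' → ℝ) :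
    qf A (fun a => v (em h a)) ≤ qf (exM h A) v := by
  rw [qf_exM]
  have := qf_Ce_nonneg h v
  linarith

theorem exM_Cpd (h : D ≤ D') {A : Matrix (Mon M D) (Mon M D) ℝ} {c c' : ℝ} (hc : c ≤ c') (hc' : 1 ≤ c')
    (hA : Cpd c A) : Cpd c' (exM h A) := by
  refine ⟨exM_symm h hA.1, fun v => ?_, fun v => ?_⟩
  · rw [qf_exM, qf_Ce]
    have := hA.2.1 (fun a => v (em h a))
    linarith
  · rw [qf_exM, qf_Ce]
    have h1 := hA.2.2 (fun a => v (em h a))
    have h2 := dot_self_nonneg (fun a => v (em h a))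
    have h3 := em_dot_le h v
    have h4 : c * ((fun a => v (em h a)) ⬝ᵥ (fun a => v (em h a))) ≤
        c' * ((fun a => v (em h a)) ⬝ᵥ (fun a => v (em h a))) := mul_le_mul_of_nonneg_right hc h2
    nlinarith

/-! ### the size on the cell -/

theorem nodp_near (r : ℝ) (hr : 0 ≤ r) (p : Fin M → ℝ) (j : Fin M → Fin (D' + 1)) (i : Fin M) :
    |nodp D' p r j i - p i| ≤ 1 * r := by
  have e1 : nodp D' p r j i - p i = r * nod D' (j i) := by
    unfold nodp
    ring
  rw [e1, abs_mul, abs_of_nonneg hr, abs_of_nonneg (nod_nonneg D' _), one_mul]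
  calc r * nod D' (j i) ≤ r * 1 := mul_le_mul_of_nonneg_left (nod_le D' _ (Nat.le_of_lt_succ (j i).2)) hr
    _ = r := mul_one _

/-- the nodes of degree `D'` of a polynomial of degree `D` -/
theorem ph_cross (q : MvPolynomial (Fin M) ℝ) (hq : q.totalDegree ≤ D) (D' : ℕ) (r : ℝ) (hr : 0 < r)
    (p : Fin M → ℝ) : ph D' q r p ≤ nn M D' * (Cu D * Cm M D) ^ 2 * ph D q r p := by
  have h1 : ∀ j ∈ (Finset.univ : Finset (Fin M → Fin (D' + 1))), (eval (nodp D' p r j) q) ^ 2 ≤
      (Cu D * Cm M D) ^ 2 * ph D q r p := by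
    intro j _
    have h2 := gro_le q hq r 1 hr le_rfl p (nodp D' p r j) (nodp_near r hr.le p j)
    rwa [one_pow, mul_one] at h2
  refine (Finset.sum_le_card_nsmul _ _ _ h1).trans (le_of_eq ?_)
  rw [nsmul_eq_mul, card_nodes]
  ring

/-- the constant of the comparison of the nodes -/
def cN (M D D' : ℕ) : ℝ := nn M D' * (Cu D * Cm M D) ^ 2

theorem cN_one (M D D' : ℕ) : 1 ≤ cN M D D' :=
  one_le_mul_of_one_le_of_one_le (nn_one M D')
    (one_le_pow₀ (one_le_mul_of_one_le_of_one_le (Cu_one D) (Cm_one M D)))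

theorem phi_exM (h : D ≤ D') (A : Matrix (Mon M D) (Mon M D) ℝ) (hA : PdM A) (r : ℝ) (hr : 0 < r)
    (p : Fin M → ℝ) : phi r (exM h A) p ≤ cN M D D' * phi r A p + phi r (1 : Matrix (Mon M D') (Mon M D') ℝ) p := by
  obtain ⟨C, hC, h1, -⟩ := exists_rows A hA
  have h2 : ∑ j : Fin M → Fin (D' + 1), qf A (vv (nodp D' p r j)) = ∑ k, ph D' (pol (C k)) r p := by
    unfold ph
    rw [Finset.sum_comm (s := (Finset.univ : Finset (Mon M D)))]
    refine Finset.sum_congr rfl fun j _ => ?_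
    unfold qf
    rw [hC, qf_rows]
    exact Finset.sum_congr rfl fun k _ => by rw [eval_pol]
  have h3 : phi r (exM h A) p ≤ ∑ j : Fin M → Fin (D' + 1), qf A (vv (nodp D' p r j)) +
      phi r (1 : Matrix (Mon M D') (Mon M D') ℝ) p := by
    unfold phi
    rw [← Finset.sum_add_distrib]
    refine Finset.sum_le_sum fun j _ => ?_
    have h4 := qf_exM h A (vv (nodp D' p r j))
    have h5 := qf_Ce_le h (vv (nodp D' p r j))
    have h6 : (fun a => vv (D := D') (nodp D' p r j) (em h a)) = vv (nodp D' p r j) := by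
      funext a
      exact vv_em h _ a
    rw [h6] at h4
    rw [Matrix.one_mulVec]
    show qf (exM h A) (vv (nodp D' p r j)) ≤ _
    rw [h4]
    linarith
  refine h3.trans (add_le_add ?_ le_rfl)
  rw [h2, h1, Finset.mul_sum]
  exact Finset.sum_le_sum fun k _ => ph_cross _ (pol_deg _) D' r hr p

/-- the gradients: the nodes of degree `D'` see the form of degree `D` -/
theorem Jq_exM (h : D ≤ D') (A : Matrix (Mon M D) (Mon M D) ℝ) (hA : PdM A) (r : ℝ) (hr : 0 < r)
    (p e : Fin M → ℝ) : e ⬝ᵥ (Jq r A p *ᵥ e) ≤ cN M D' D * (e ⬝ᵥ (Jq r (exM h A) p *ᵥ e)) := by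
  obtain ⟨C, hC, -⟩ := exists_factor A hA
  have h1 : e ⬝ᵥ (Jq r A p *ᵥ e) = ∑ k, ph D (dir e (pol (C k))) r p := by
    rw [hC, Jq_rows]
  have h2 : ∑ k, ph D' (dir e (pol (C k))) r p ≤ e ⬝ᵥ (Jq r (exM h A) p *ᵥ e) := by
    rw [Jq_qf]
    unfold ph
    rw [Finset.sum_comm (s := (Finset.univ : Finset (Mon M D)))]
    refine Finset.sum_le_sum fun j _ => ?_
    have h3 := le_qf_exM h A (Wq M D' (nodp D' p r j) *ᵥ e)
    have h4 : (fun a => (Wq M D' (nodp D' p r j) *ᵥ e) (em h a)) = Wq M D (nodp D' p r j) *ᵥ e := by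
      funext a
      exact Wq_em h _ e a
    rw [h4] at h3
    refine le_trans (le_of_eq ?_) h3
    unfold qf
    rw [hC, qf_rows]
    exact Finset.sum_congr rfl fun k _ => by rw [eval_dir]
  rw [h1]
  refine le_trans ?_ (mul_le_mul_of_nonneg_left h2 (by have := cN_one M D' D; linarith))
  rw [Finset.mul_sum]
  exact Finset.sum_le_sum fun k _ => ph_cross _ ((dir_deg e _ (pol_deg _)).trans h) D r hr p

theorem GQ_exM (h : D ≤ D') (A : Matrix (Mon M D) (Mon M D) ℝ) (hA : ∀ x, x ⬝ᵥ x ≤ qf A x) (hs : A.IsSymm) (r : ℝ)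
    (hr : 0 < r) (p : Fin M → ℝ) : GQ r A p ≤ cN M D' D ^ M * GQ r (exM h A) p := by
  have hc := cN_one M D' D
  have hA0 : ∀ x, 0 ≤ x ⬝ᵥ (A *ᵥ x) := fun x => (dot_self_nonneg x).trans (hA x)
  have hE0 : ∀ x, 0 ≤ x ⬝ᵥ (exM h A *ᵥ x) := fun x => by
    have h1 := le_qf_exM h A x
    exact (hA0 _).trans h1
  have h4 : ∀ x : Fin M → ℝ, x ⬝ᵥ ((1 + Jq r A p) *ᵥ x) ≤ cN M D' D * (x ⬝ᵥ ((1 + Jq r (exM h A) p) *ᵥ x)) := by
    intro x
    rw [dv_add, dv_add, one_dv, mul_add]
    have h6 : (0 : ℝ) ≤ x ⬝ᵥ x := dot_self_nonneg x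
    exact add_le_add (by nlinarith) (Jq_exM h A (pdM_of_one_le hs hA) r hr p x)
  have h5 := det_le_pow (one_Jq_pd r (exM_symm h hs) hE0 p) (one_Jq_pd r hs hA0 p) (by linarith) h4
  rw [Fintype.card_fin] at h5
  exact h5

end

end Pool.Agent.Helper62.DGR
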